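import Pool.Agent.Q323.ZT.Mdl

/-!
# The equations of a curve with full rational 2-torsion and its 2-Selmer group
-/

set_option autoImplicit false

open WeierstrassCurve

namespace Pool.Agent.Q323.SC

open Finset

open Pool.Agent.W307.SE (Sel SelR Loc)

open Pool.Agent.W307.RT (HasT Sh tors_iff)

open Pool.Agent.Q284.FDQ (Cov Quar Md)

open Pool.Agent.Y285.RP (cc)

/-- the roots of an equation -/
theorem roots_of {c : ℤ × ℤ} (hD : 4 * c.1 ^ 3 + 27 * c.2 ^ 2 ≠ 0) (hT : HasT 2 (Sh c.1 c.2))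
    {A B : ℤ} (h : Md c A B) : ∃ (e1 e2 e3 : ℤ) (m : ℚ),
      (∀ x : ℤ, x ^ 3 + c.1 * x + c.2 = (x - e1) * (x - e2) * (x - e3)) ∧ m ≠ 0 ∧
      (A : ℚ) = m ^ 2 * ((e2 - e1 : ℤ) : ℚ) ∧ (B : ℚ) = m ^ 2 * ((e3 - e1 : ℤ) : ℚ) := by
  obtain ⟨F, -, hF⟩ := Pool.Agent.W513.FK.parf
  obtain ⟨-, -, -, -, -, e1, e2, e3, he, -, -⟩ := hF c hD hT
  obtain ⟨hs, hc1, hc2⟩ := Pool.Agent.W402.FK.coef c.1 c.2 e1 e2 e3 he
  have hcc : cc (e2 - e1) (e3 - e1) (-e1) = c := by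
    unfold cc
    refine Prod.ext ?_ ?_
    · show (e2 - e1) * (e3 - e1) - 3 * (-e1) ^ 2 = c.1
      rw [hc1]
      linear_combination (-2 * e1) * hs
    · show -e1 * (e2 - e1 - -e1) * (e3 - e1 - -e1) = c.2
      rw [hc2]
      ring
  have hk : (e2 - e1) + (e3 - e1) = 3 * (-e1) := by linear_combination hs
  have h' : Md (cc (e2 - e1) (e3 - e1) (-e1)) A B := by rw [hcc]; exact h
  obtain ⟨m, hm, ⟨h1, h2⟩ | ⟨h1, h2⟩ | ⟨h1, h2⟩⟩ := Pool.Agent.Q284.ISO.models hk h'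
  · rcases Pool.Agent.Q284.FDQ.mdl_two (A := A) (B := B) (X := ((e2 - e1 : ℤ) : ℚ))
      (Y := ((e3 - e1 : ℤ) : ℚ)) (m := m)
      (by push_cast at h1 ⊢; linear_combination -h1)
      (by push_cast at h2 ⊢; linear_combination h2) with ⟨g1, g2⟩ | ⟨g1, g2⟩
    · exact ⟨e1, e2, e3, m, he, hm, g1, g2⟩
    · exact ⟨e1, e3, e2, m, fun x => by rw [he]; ring, hm, g1, g2⟩
  · rcases Pool.Agent.Q284.FDQ.mdl_two (A := A) (B := B) (X := ((e1 - e2 : ℤ) : ℚ))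
      (Y := ((e3 - e2 : ℤ) : ℚ)) (m := m)
      (by push_cast at h1 ⊢; linear_combination -h1)
      (by push_cast at h2 ⊢; linear_combination h2) with ⟨g1, g2⟩ | ⟨g1, g2⟩
    · exact ⟨e2, e1, e3, m, fun x => by rw [he]; ring, hm, g1, g2⟩
    · exact ⟨e2, e3, e1, m, fun x => by rw [he]; ring, hm, g1, g2⟩
  · rcases Pool.Agent.Q284.FDQ.mdl_two (A := A) (B := B) (X := ((e1 - e3 : ℤ) : ℚ))
      (Y := ((e2 - e3 : ℤ) : ℚ)) (m := m)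
      (by push_cast at h1 ⊢; linear_combination -h1)
      (by push_cast at h2 ⊢; linear_combination h2) with ⟨g1, g2⟩ | ⟨g1, g2⟩
    · exact ⟨e3, e1, e2, m, fun x => by rw [he]; ring, hm, g1, g2⟩
    · exact ⟨e3, e2, e1, m, fun x => by rw [he]; ring, hm, g1, g2⟩

/-- scaling -/
lemma loc_scale {K : Type} [Field K] [CharZero K] {A B A0 B0 b d : ℤ} {m : ℚ} (hm : m ≠ 0)
    (hA : (A : ℚ) = m ^ 2 * (A0 : ℚ)) (hB : (B : ℚ) = m ^ 2 * (B0 : ℚ)) (h : Loc K A B b d) :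
    Loc K A0 B0 b d := by
  have hmK : (m : K) ≠ 0 := Rat.cast_ne_zero.2 hm
  have hAK : (A : K) = (m : K) ^ 2 * (A0 : K) := by
    exact_mod_cast congrArg (Rat.cast : ℚ → K) hA
  have hBK : (B : K) = (m : K) ^ 2 * (B0 : K) := by
    exact_mod_cast congrArg (Rat.cast : ℚ → K) hB
  obtain ⟨X, Y, h0, h1, ⟨r, hr⟩, ⟨s, hs⟩⟩ := h
  rw [hAK, hBK] at h1
  rw [hAK] at hs
  refine ⟨X / (m : K) ^ 2, Y / (m : K) ^ 3, div_ne_zero h0 (pow_ne_zero 3 hmK), ?_,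
    ⟨r / (m : K), ?_⟩, ⟨s / (m : K), ?_⟩⟩
  · rw [div_pow, h1]
    field_simp
  · rw [div_mul_div_comm, ← hr]
    field_simp
  · rw [div_mul_div_comm, ← hs]
    field_simp

/-- **All the equations.** -/
theorem selcov {c : ℤ × ℤ} (hD : 4 * c.1 ^ 3 + 27 * c.2 ^ 2 ≠ 0) (hT : HasT 2 (Sh c.1 c.2))
    (hc : (SelR c.1 c.2).ncard ≤ 4) {A B : ℤ} (h : Md c A B) {b d : ℤ}
    (hm : (b, d) ∈ Sel A B) : Cov ℚ A B b d := by
  obtain ⟨e1, e2, e3, m, he, hm0, hA, hB⟩ := roots_of hD hT h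
  obtain ⟨hb, hd, hR, hp⟩ := hm
  rw [Pool.Agent.Q323.ZT.cov_scale hm0 hA hB]
  exact Pool.Agent.Q323.ZT.cov_any hD hT hc he
    ⟨hb, hd, loc_scale hm0 hA hB hR, fun p hpp => loc_scale hm0 hA hB (hp p)⟩

end Pool.Agent.Q323.SC
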