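import Pool.Agent.Q284.SC.Fin2
import Pool.Agent.Q323.ZT.Tw
import Pool.Agent.Y667.BK.Fin
import Pool.Agent.Y667.RZ.Sha

/-!
# Locally geometric sections and curves with 2-Selmer group of order four

The same as in `Pool.Agent.Q284.SC`, without the assumption that no point of order two is divisible
by two.
-/

set_option autoImplicit false

open WeierstrassCurve

namespace Pool.Agent.Q323.SC

open Pool.Agent.W620.SC Pool.Agent.W623.SecC Pool.Agent.W623.SecE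

open Pool.Agent.H437R2.Man.MW (crv crv_eqn crv_nonsing)

open Pool.Agent.W307.SE (Sel SelR)

open Pool.Agent.W307.RT (HasT Sh tors_iff)

open Pool.Agent.Q284.FDQ Pool.Agent.Q284.SC

section

variable {A B e1 e2 e3 : ℤ} (h : ∀ x : ℤ, x ^ 3 + A * x + B = (x - e1) * (x - e2) * (x - e3))
  (h12 : e1 ≠ e2) (h13 : e1 ≠ e3) (h23 : e2 ≠ e3)

include h h12 h13 h23

open Classical in
/-- the point is congruent to a rational point -/
theorem step' (hrat : ∀ b d : ℤ, (b, d) ∈ Sel (e2 - e1) (e3 - e1) →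
      Cov ℚ (e2 - e1) (e3 - e1) b d) {R : Type} [Field R] [CharZero R] [Algebra ℚ R]
    (pr : Place R ℝ) (pp : ∀ (p : ℕ) [Fact p.Prime], Place R ℚ_[p])
    (P : ((WZ A B).baseChange R).Point)
    {n1 n2 : ℤ} (hn1 : Squarefree n1) (hn2 : Squarefree n2)
    (p1 : IsSquare (vl P (e1 : R) ((e1 - e2) * (e1 - e3)) * n1))
    (p2 : IsSquare (vl P (e2 : R) ((e2 - e1) * (e2 - e3)) * n2)) :
    ∃ T : ((WZ A B).baseChange ℚ).Point, ∃ S, P = Affine.Point.baseChange ℚ R T + (S + S) := by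
  have hm := sel_pt h h12 h13 h23 pr pp P hn1 hn2 p1 p2
  obtain ⟨T, t1, t2⟩ := point_of_cov (WZ_eq h ℚ) hn1.ne_zero hn2.ne_zero h12 h13 h23 (hrat _ _ hm)
  exact ⟨T, one_field' h h12 h13 h23 hn1.ne_zero hn2.ne_zero P T p1 p2 t1 t2⟩

open Classical in
/-- all powers of two -/
theorem steps' (hrat : ∀ b d : ℤ, (b, d) ∈ Sel (e2 - e1) (e3 - e1) →
      Cov ℚ (e2 - e1) (e3 - e1) b d) (hfin : Finite ((WZ A B).baseChange ℚ).Point)
    {R : Type} [Field R] [CharZero R] [Algebra ℚ R]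
    (pr : Place R ℝ) (pp : ∀ (p : ℕ) [Fact p.Prime], Place R ℚ_[p])
    (cls : ∀ P : ((WZ A B).baseChange R).Point, ∃ n1 n2 : ℤ, Squarefree n1 ∧ Squarefree n2 ∧
      IsSquare (vl P (e1 : R) ((e1 - e2) * (e1 - e3)) * n1) ∧
      IsSquare (vl P (e2 : R) ((e2 - e1) * (e2 - e3)) * n2))
    (P : ((WZ A B).baseChange R).Point) :
    ∃ T : ((WZ A B).baseChange ℚ).Point,
      ∀ m : ℕ, ∃ S, P = Affine.Point.baseChange ℚ R T + 2 ^ m • S := by
  have one : ∀ P : ((WZ A B).baseChange R).Point, ∃ T : ((WZ A B).baseChange ℚ).Point,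
      ∃ S, P = Affine.Point.baseChange ℚ R T + (S + S) := by
    intro P
    obtain ⟨n1, n2, hn1, hn2, p1, p2⟩ := cls P
    exact step' h h12 h13 h23 hrat pr pp P hn1 hn2 p1 p2
  have key : ∀ m : ℕ, ∃ T : ((WZ A B).baseChange ℚ).Point,
      ∃ S, P = Affine.Point.baseChange ℚ R T + 2 ^ m • S := by
    intro m
    induction m with
    | zero => exact ⟨0, P, by rw [map_zero, zero_add, pow_zero, one_nsmul]⟩
    | succ m ih =>
      obtain ⟨T, S, hS⟩ := ih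
      obtain ⟨T', S', hS'⟩ := one S
      refine ⟨T + 2 ^ m • T', S', ?_⟩
      rw [hS, hS', map_add, map_nsmul, nsmul_add, add_assoc, ← two_nsmul, ← mul_nsmul', ← pow_succ]
  choose T hT using key
  obtain ⟨t, ht⟩ := Finite.exists_infinite_fiber T
  have hinf : (T ⁻¹' {t}).Infinite := Set.infinite_coe_iff.1 ht
  refine ⟨t, fun m => ?_⟩
  obtain ⟨m', hm', hlt⟩ := hinf.exists_gt m
  obtain ⟨S, hS⟩ := hT m'
  have e : T m' = t := hm'
  refine ⟨2 ^ (m' - m) • S, ?_⟩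
  rw [← mul_nsmul', ← pow_add, Nat.add_sub_cancel' hlt.le, ← e]
  exact hS

end

section

variable {F Ω : Type} [Field F] [Field Ω] [Algebra ℚ F] [Algebra F Ω] [Algebra ℚ Ω]
  {U : Set (ValuationSubring F)}

variable [IsScalarTower ℚ F Ω] [IsAlgClosed Ω] [Algebra.IsAlgebraic F Ω]
  (hU : ∀ O ∈ U, ∀ c : ℚ, algebraMap ℚ F c ∈ O) {G : GSection ℚ F Ω U}

include hU

open Classical in
/-- locally geometric sections -/
theorem mainF (hG : LocGeo G) {A B e1 e2 e3 : ℤ}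
    (h : ∀ x : ℤ, x ^ 3 + A * x + B = (x - e1) * (x - e2) * (x - e3))
    (h12 : e1 ≠ e2) (h13 : e1 ≠ e3) (h23 : e2 ≠ e3)
    (hrat : ∀ b d : ℤ, (b, d) ∈ Sel (e2 - e1) (e3 - e1) → Cov ℚ (e2 - e1) (e3 - e1) b d)
    (hfin : Finite ((WZ A B).baseChange ℚ).Point)
    (P : ((WZ A B).baseChange (FF G)).Point) :
    ∃ T : ((WZ A B).baseChange ℚ).Point,
      ∀ m : ℕ, ∃ S, P = Affine.Point.baseChange ℚ (FF G) T + 2 ^ m • S := by
  obtain ⟨⟨pr, hpr⟩, hpp⟩ := hG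
  choose pp hpp using hpp
  have pr' : Place (FF G) ℝ := placeFix G pr hpr
  have pp' : ∀ (q : ℕ) [Fact q.Prime], Place (FF G) ℚ_[q] := fun q _ => placeFix G (pp q) (hpp q)
  refine steps' h h12 h13 h23 hrat hfin pr' pp' (fun P => ?_) P
  obtain ⟨n1, hn1, k1⟩ := cls_pt hU G (WR := (WZ A B).baseChange (FF G)) (WZ_eq h (FF G)) h12 h13 P
  have hW : (WZ A B).baseChange (FF G) = crv (-(e2 : FF G)) (-(e1 : FF G)) (-(e3 : FF G)) := by
    rw [WZ_eq h (FF G), perm12]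
  obtain ⟨n2, hn2, k2⟩ := cls_pt hU G (WR := (WZ A B).baseChange (FF G)) hW h12.symm h23 P
  exact ⟨n1, n2, hn1, hn2, k1, k2⟩

end

section

variable {F Ω : Type} [Field F] [CharZero F] [Field Ω] [Algebra ℚ F] [Algebra F Ω] [Algebra ℚ Ω]
  {U : Set (ValuationSubring F)} [IsScalarTower ℚ F Ω] [IsAlgClosed Ω] [Algebra.IsAlgebraic F Ω]

open Classical in
theorem mainX (hU : ∀ O ∈ U, ∀ c : ℚ, algebraMap ℚ F c ∈ O) {G : GSection ℚ F Ω U}
    (hG : LocGeo G) {A B e1 e2 e3 : ℤ}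
    (h : ∀ x : ℤ, x ^ 3 + A * x + B = (x - e1) * (x - e2) * (x - e3))
    (h12 : e1 ≠ e2) (h13 : e1 ≠ e3) (h23 : e2 ≠ e3)
    (hrat : ∀ b d : ℤ, (b, d) ∈ Sel (e2 - e1) (e3 - e1) → Cov ℚ (e2 - e1) (e3 - e1) b d)
    (hfin : Finite ((WZ A B).baseChange ℚ).Point)
    (P : ((WZ A B).baseChange (FX G)).Point) :
    ∃ T : ((WZ A B).baseChange ℚ).Point,
      ∀ m : ℕ, ∃ S, P = Affine.Point.baseChange ℚ (FX G) T + 2 ^ m • S :=
  mainF hU hG h h12 h13 h23 hrat hfin P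

end

/-- finitely many rational points -/
theorem fin_of {c : ℤ × ℤ} (hD : 4 * c.1 ^ 3 + 27 * c.2 ^ 2 ≠ 0) (hT : HasT 2 (Sh c.1 c.2))
    (hf : (SelR c.1 c.2).Finite) (hc : (SelR c.1 c.2).ncard ≤ 4) :
    Finite ((WZ c.1 c.2).baseChange ℚ).Point := by
  have h0 := (Pool.Agent.Y667.SHA.sha_zero4 hD hT hf hc).1
  have h1 := Pool.Agent.Y667.BK.fin_pts hD hT h0
  obtain ⟨F, -, hF⟩ := Pool.Agent.W513.FK.parf
  obtain ⟨-, -, -, -, -, e1, e2, e3, he, -, -⟩ := hF c hD hT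
  have e : (WZ c.1 c.2).baseChange ℚ = Sh c.1 c.2 :=
    (WZ_eq he ℚ).trans (Pool.Agent.Q323.ZT.Sh_eq he).symm
  rw [e]
  exact h1

end Pool.Agent.Q323.SC
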